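import Pool.Agent.Helper52.C2.Goals

/-!
PROJECT C2, packet POS1.
-/

namespace Pool.Agent.Helper81.C2

open LaurentPolynomial Pool.Agent.Helper52.C2

/-- the embedding of the directions -/
def emb {J : Type} (w : J) : Dir Unit → Dir J
  | .X => .X
  | .Y => .Y
  | .V _ => .V w

theorem asg_eq {J : Type} [DecidableEq J] (K : J → Prop) [DecidablePred K] (a : J → Tg) {w : J}
    (hK : ∀ k, K k ↔ k = w) (m : J → ℤ) : asg K a m = Function.update a w (U (m w)) := by
  funext k
  unfold asg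
  by_cases h : k = w
  · subst h
    rw [if_pos ((hK k).2 rfl), Function.update_self]
  · rw [if_neg fun h1 => h ((hK k).1 h1), Function.update_of_ne h]

theorem coeff_eq (hC : GoalCoefH) {J : Type} [DecidableEq J] {Φ : (J → Tg) → ℝ[T;T⁻¹]}
    (hΦ : Affine Φ) (K : J → Prop) [DecidablePred K] (a : J → Tg) {w : J}
    (hK : ∀ k, K k ↔ k = w) (m : J → ℤ) (i : ℤ) :
    (Φ (asg K a m)).coeff i = (slot Φ a w).h (m w) i := by
  rw [← hC, asg_eq K a hK, hΦ]
  rfl

theorem pos1 : GoalPos1 := by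
  intro hC hM J _ _ Φ K _ a w hΦ hn hK hP
  refine ⟨hn, fun n i => ?_⟩
  obtain ⟨m, hm0, hw⟩ : ∃ m : J → ℤ, (∀ k, 0 ≤ m k) ∧ m w = n :=
    ⟨fun _ => n, fun _ => Int.natCast_nonneg n, rfl⟩
  have h := hP m i hm0
  have hc := fun m j => coeff_eq hC hΦ K a hK m j
  refine hM _ _ _ _ _ _ (emb w) h ?_ ?_
  · rintro (_ | _ | _) hb
    · trivial
    · trivial
    · exact ⟨(hK w).2 rfl, by
        rw [hw]
        exact_mod_cast hb⟩
  · have e1 : (m - Pi.single w 1 : J → ℤ) w = n - 1 := by
      simp [hw]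
    have e2 : (m - Pi.single w 2 : J → ℤ) w = n - 2 := by
      simp [hw]
    have e3 : (m - Pi.single w 1 - Pi.single w 1 : J → ℤ) w = n - 2 := by
      simp [hw]
      ring
    rintro (_ | _ | _) (_ | _ | _) hb hc'
    · show _ = (Φ (asg K a _)).coeff (i + 2)
      rw [hc, hw]
      rfl
    · show _ = (Φ (asg K a _)).coeff (i + 1)
      rw [hc, hw]
      rfl
    · show _ = (Φ (asg K a _)).coeff (i + 1)
      rw [hc, e1]
      rfl
    · show _ = (Φ (asg K a _)).coeff (i + 1)
      rw [hc, hw]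
      rfl
    · show _ = (Φ (asg K a _)).coeff i
      rw [hc, hw]
      rfl
    · show _ = (Φ (asg K a _)).coeff i
      rw [hc, e1]
      rfl
    · show _ = (Φ (asg K a _)).coeff (i + 1)
      rw [hc, e1]
      rfl
    · show _ = (Φ (asg K a _)).coeff i
      rw [hc, e1]
      rfl
    · show (if n = 1 then max ((slot Φ a w).h (-1) i) 0 else (slot Φ a w).h (n - 2) i) =
        if w = w ∧ m w = 1 then
          max ((Φ (asg K a (m - Pi.single w 2))).coeff i) 0
        else (Φ (asg K a (m - Pi.single w 1 - Pi.single w 1))).coeff i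
      rw [hc, hc, e2, e3, hw]
      by_cases h1 : n = 1
      · subst h1
        rw [if_pos rfl, if_pos ⟨rfl, Nat.cast_one⟩]
        norm_num
      · rw [if_neg h1, if_neg fun h2 => h1 (by exact_mod_cast h2.2)]

end Pool.Agent.Helper81.C2
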